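import Pool.Agent.H94.LP5.M02

/-!
Components and the substitution.
-/

namespace Pool.Agent.H21.HD

open MvPolynomial
open scoped Classical

set_option linter.unusedSectionVars false

variable {N : ℕ} {A Λ : Type} [Fintype A] [Fintype Λ]

namespace BlockAX

theorem comp_monomial (a : Fin N → ℕ) (μ : Λ → ℕ) (δ : Sg N A Λ →₀ ℕ) :
    comp a μ (monomial δ (1 : ℂ)) =
      if bdeg δ = a ∧ (fun l => δ (Sum.inr l)) = μ then monomial δ (1 : ℂ) else 0 := by
  unfold comp
  have h := (basisMonomials (Sg N A Λ) ℂ).constr_basis ℂ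
    (fun γ => if bdeg γ = a ∧ (fun l => γ (Sum.inr l)) = μ then monomial γ (1 : ℂ) else 0) δ
  simpa using h

end BlockAX

open BlockAX

theorem coeff_comp (a : Fin N → ℕ) (μ : Λ → ℕ) (F : MvPolynomial (Sg N A Λ) ℂ)
    (γ : Sg N A Λ →₀ ℕ) :
    coeff γ (comp a μ F) =
      if bdeg γ = a ∧ (fun l => γ (Sum.inr l)) = μ then coeff γ F else 0 := by
  induction F using MvPolynomial.induction_on' with
  | monomial δ r =>
    have h1 : (monomial δ r : MvPolynomial (Sg N A Λ) ℂ) = r • monomial δ (1 : ℂ) := by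
      rw [MvPolynomial.smul_monomial, smul_eq_mul, mul_one]
    rw [h1, map_smul, comp_monomial, coeff_smul, coeff_smul]
    by_cases hγδ : δ = γ
    · subst hγδ
      split_ifs <;> simp
    · split_ifs <;> simp [coeff_monomial, hγδ]
  | add p q hp hq =>
    rw [map_add, coeff_add, hp, hq, coeff_add]
    split_ifs <;> simp

namespace BlockAX

/-- All the monomials of `F` have block degrees `a` and label exponents `μ`. -/
def Gr (a : Fin N → ℕ) (μ : Λ → ℕ) (F : MvPolynomial (Sg N A Λ) ℂ) : Prop :=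
  ∀ γ, coeff γ F ≠ 0 → bdeg γ = a ∧ (fun l => γ (Sum.inr l)) = μ

theorem bdeg_add (γ δ : Sg N A Λ →₀ ℕ) : bdeg (γ + δ) = bdeg γ + bdeg δ := by
  funext i
  simp [bdeg, Finset.sum_add_distrib]

theorem Gr.mul {a a' : Fin N → ℕ} {μ μ' : Λ → ℕ} {F G : MvPolynomial (Sg N A Λ) ℂ}
    (hF : Gr a μ F) (hG : Gr a' μ' G) : Gr (a + a') (μ + μ') (F * G) := by
  intro γ hγ
  rw [coeff_mul] at hγ
  obtain ⟨x, hx, hne⟩ := Finset.exists_ne_zero_of_sum_ne_zero hγ
  have h1 := hF x.1 (left_ne_zero_of_mul hne)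
  have h2 := hG x.2 (right_ne_zero_of_mul hne)
  rw [Finset.HasAntidiagonal.mem_antidiagonal] at hx
  rw [← hx]
  refine ⟨by rw [bdeg_add, h1.1, h2.1], ?_⟩
  rw [← h1.2, ← h2.2]
  rfl

theorem Gr.sum {κ : Type*} {a : Fin N → ℕ} {μ : Λ → ℕ} (S : Finset κ)
    (F : κ → MvPolynomial (Sg N A Λ) ℂ)
    (hF : ∀ k ∈ S, Gr a μ (F k)) : Gr a μ (∑ k ∈ S, F k) := by
  intro γ hγ
  rw [coeff_sum] at hγ
  obtain ⟨k, hk, hne⟩ := Finset.exists_ne_zero_of_sum_ne_zero hγ
  exact hF k hk γ hne

theorem Gr.C_mul {a : Fin N → ℕ} {μ : Λ → ℕ} {F : MvPolynomial (Sg N A Λ) ℂ}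
    (r : ℂ) (hF : Gr a μ F) : Gr a μ (C r * F) := by
  intro γ hγ
  rw [coeff_C_mul] at hγ
  exact hF γ (right_ne_zero_of_mul hγ)

theorem bdeg_single_inl (i : Fin N) (x : A) (n : ℕ) :
    bdeg (Finsupp.single (Sum.inl (i, x) : Sg N A Λ) n) = Pi.single i n := by
  funext j
  unfold bdeg
  by_cases hj : j = i
  · subst hj
    rw [Pi.single_eq_same, Finset.sum_eq_single x]
    · simp
    · intro b _ hb
      rw [Finsupp.single_apply, if_neg]
      intro h
      apply hb
      simpa using (Sum.inl.inj h).symm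
    · intro h; exact absurd (Finset.mem_univ x) h
  · rw [Pi.single_eq_of_ne hj]
    apply Finset.sum_eq_zero
    intro b _
    rw [Finsupp.single_apply, if_neg]
    intro h
    apply hj
    have := (Prod.mk.inj (Sum.inl.inj h)).1
    exact this.symm

theorem Gr.X (s : Sg N A Λ) : Gr (bdeg (Finsupp.single s 1))
    (fun l => (Finsupp.single s 1 : Sg N A Λ →₀ ℕ) (Sum.inr l))
    (MvPolynomial.X s : MvPolynomial (Sg N A Λ) ℂ) := by
  intro γ hγ
  rw [coeff_X] at hγ
  have h : Finsupp.single s 1 = γ := by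
    by_contra h
    simp [h] at hγ
  subst h
  exact ⟨rfl, rfl⟩

theorem sbt_X_gr (c : Finset (Fin N)) (ref : Fin N → A) (v : Fin N → A → ℂ) (s : Sg N A Λ) :
    Gr (bdeg (Finsupp.single s 1))
    (fun l => (Finsupp.single s 1 : Sg N A Λ →₀ ℕ) (Sum.inr l))
    (sbt c ref v (MvPolynomial.X s)) := by
  unfold sbt
  rw [aeval_X]
  rcases s with ⟨i, x⟩ | l
  · simp only [Sum.elim_inl]
    split_ifs with h
    · apply Gr.sum
      intro b _
      apply Gr.C_mul
      have := Gr.X (A := A) (Λ := Λ) (Sum.inl (i, b))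
      rw [bdeg_single_inl] at this ⊢
      convert this using 1
      funext l
      rw [Finsupp.single_apply, Finsupp.single_apply, if_neg, if_neg]
      · intro h; cases h
      · intro h; cases h
    · exact Gr.X _
  · simp only [Sum.elim_inr]
    exact Gr.X _

theorem sbt_monomial_gr (c : Finset (Fin N)) (ref : Fin N → A) (v : Fin N → A → ℂ)
    (δ : Sg N A Λ →₀ ℕ) :
    Gr (bdeg δ) (fun l => δ (Sum.inr l)) (sbt c ref v (monomial δ (1 : ℂ))) := by
  induction δ using Finsupp.induction_linear with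
  | zero =>
    have h : (monomial (0 : Sg N A Λ →₀ ℕ) (1 : ℂ)) = 1 := rfl
    rw [h, map_one]
    intro γ hγ
    rw [coeff_one] at hγ
    have h : 0 = γ := by
      by_contra h
      simp [h] at hγ
    subst h
    exact ⟨rfl, rfl⟩
  | add f g hf hg =>
    have h : (monomial (f + g) (1 : ℂ) : MvPolynomial (Sg N A Λ) ℂ)
        = monomial f 1 * monomial g 1 := by
      rw [monomial_mul, one_mul]
    rw [h, map_mul, bdeg_add]
    exact hf.mul hg
  | single s n =>
    induction n with
    | zero =>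
      rw [Finsupp.single_zero]
      have h : (monomial (0 : Sg N A Λ →₀ ℕ) (1 : ℂ)) = 1 := rfl
      rw [h, map_one]
      intro γ hγ
      rw [coeff_one] at hγ
      have h : 0 = γ := by
        by_contra h
        simp [h] at hγ
      subst h
      exact ⟨rfl, rfl⟩
    | succ n ih =>
      have h : (monomial (Finsupp.single s (n + 1)) (1 : ℂ) : MvPolynomial (Sg N A Λ) ℂ)
          = monomial (Finsupp.single s n) 1 * MvPolynomial.X s := by
        rw [MvPolynomial.X, monomial_mul, one_mul, Finsupp.single_add]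
      rw [h, map_mul, Finsupp.single_add, bdeg_add]
      exact ih.mul (sbt_X_gr c ref v s)

theorem comp_of_gr {a a' : Fin N → ℕ} {μ μ' : Λ → ℕ} {F : MvPolynomial (Sg N A Λ) ℂ}
    (hF : Gr a' μ' F) : comp a μ F = if a' = a ∧ μ' = μ then F else 0 := by
  ext γ
  rw [coeff_comp]
  by_cases hc : coeff γ F = 0
  · rw [hc]
    split_ifs <;> simp [hc]
  · obtain ⟨h1, h2⟩ := hF γ hc
    rw [h1, h2]
    split_ifs <;> simp

end BlockAX

/-- The substitution preserves the block degrees and the label exponents. -/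
theorem comp_sbt (c : Finset (Fin N)) (ref : Fin N → A) (v : Fin N → A → ℂ)
    (a : Fin N → ℕ) (μ : Λ → ℕ) (F : MvPolynomial (Sg N A Λ) ℂ) :
    comp a μ (sbt c ref v F) = sbt c ref v (comp a μ F) := by
  induction F using MvPolynomial.induction_on' with
  | monomial δ r =>
    have h1 : (monomial δ r : MvPolynomial (Sg N A Λ) ℂ) = r • monomial δ (1 : ℂ) := by
      rw [MvPolynomial.smul_monomial, smul_eq_mul, mul_one]
    rw [h1, map_smul, map_smul, map_smul, map_smul, comp_monomial,
      comp_of_gr (sbt_monomial_gr c ref v δ)]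
    split_ifs <;> simp
  | add p q hp hq =>
    rw [map_add, map_add, map_add, map_add, hp, hq]

namespace BlockAX

/-- The inverse substitution. -/
noncomputable def theta (c : Finset (Fin N)) (ref : Fin N → A) (v : Fin N → A → ℂ) :
    MvPolynomial (Sg N A Λ) ℂ →ₐ[ℂ] MvPolynomial (Sg N A Λ) ℂ :=
  aeval (Sum.elim
    (fun x => if x.1 ∈ c ∧ x.2 = ref x.1 then
        C (v x.1 (ref x.1))⁻¹ * (X (Sum.inl (x.1, ref x.1)) -
          ∑ a ∈ Finset.univ.erase (ref x.1), C (v x.1 a) * X (Sum.inl (x.1, a)))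
      else X (Sum.inl x))
    (fun l => X (Sum.inr l)))

theorem sbt_X_inl_of (c : Finset (Fin N)) (ref : Fin N → A) (v : Fin N → A → ℂ)
    (i : Fin N) (hi : i ∈ c) :
    sbt (Λ := Λ) c ref v (X (Sum.inl (i, ref i))) =
      ∑ a, C (v i a) * X (Sum.inl (i, a)) := by
  unfold sbt
  rw [aeval_X, Sum.elim_inl, if_pos ⟨hi, rfl⟩]

theorem sbt_X_inl_not (c : Finset (Fin N)) (ref : Fin N → A) (v : Fin N → A → ℂ)
    (i : Fin N) (x : A) (h : ¬ (i ∈ c ∧ x = ref i)) :
    sbt (Λ := Λ) c ref v (X (Sum.inl (i, x))) = X (Sum.inl (i, x)) := by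
  unfold sbt
  rw [aeval_X, Sum.elim_inl, if_neg h]

theorem sbt_X_inr (c : Finset (Fin N)) (ref : Fin N → A) (v : Fin N → A → ℂ)
    (l : Λ) :
    sbt (Λ := Λ) c ref v (X (Sum.inr l)) = X (Sum.inr l) := by
  unfold sbt
  rw [aeval_X, Sum.elim_inr]

theorem theta_X_inl_of (c : Finset (Fin N)) (ref : Fin N → A) (v : Fin N → A → ℂ)
    (i : Fin N) (hi : i ∈ c) :
    theta (Λ := Λ) c ref v (X (Sum.inl (i, ref i))) =
      C (v i (ref i))⁻¹ * (X (Sum.inl (i, ref i)) -
          ∑ a ∈ Finset.univ.erase (ref i), C (v i a) * X (Sum.inl (i, a))) := by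
  unfold theta
  rw [aeval_X, Sum.elim_inl, if_pos ⟨hi, rfl⟩]

theorem theta_X_inl_not (c : Finset (Fin N)) (ref : Fin N → A) (v : Fin N → A → ℂ)
    (i : Fin N) (x : A) (h : ¬ (i ∈ c ∧ x = ref i)) :
    theta (Λ := Λ) c ref v (X (Sum.inl (i, x))) = X (Sum.inl (i, x)) := by
  unfold theta
  rw [aeval_X, Sum.elim_inl, if_neg h]

theorem theta_X_inr (c : Finset (Fin N)) (ref : Fin N → A) (v : Fin N → A → ℂ)
    (l : Λ) :
    theta (Λ := Λ) c ref v (X (Sum.inr l)) = X (Sum.inr l) := by
  unfold theta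
  rw [aeval_X, Sum.elim_inr]

theorem theta_sbt (c : Finset (Fin N)) (ref : Fin N → A) (v : Fin N → A → ℂ)
    (hv : ∀ i ∈ c, v i (ref i) ≠ 0) (F : MvPolynomial (Sg N A Λ) ℂ) :
    theta c ref v (sbt c ref v F) = F := by
  have h : (theta (Λ := Λ) c ref v).comp (sbt c ref v) = AlgHom.id ℂ _ := by
    apply MvPolynomial.algHom_ext
    intro s
    rw [AlgHom.comp_apply, AlgHom.id_apply]
    rcases s with ⟨i, x⟩ | l
    · by_cases h : i ∈ c ∧ x = ref i
      · obtain ⟨hi, rfl⟩ := h
        rw [sbt_X_inl_of c ref v i hi, map_sum, ← Finset.add_sum_erase _ _ (Finset.mem_univ (ref i)),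
          map_mul, theta_X_inl_of c ref v i hi, algHom_C]
        have h2 : ∑ x ∈ Finset.univ.erase (ref i), theta (Λ := Λ) c ref v
            (C (v i x) * X (Sum.inl (i, x)))
            = ∑ x ∈ Finset.univ.erase (ref i), C (v i x) * X (Sum.inl (i, x)) := by
          apply Finset.sum_congr rfl
          intro x hx
          rw [map_mul, theta_X_inl_not c ref v i x, algHom_C]
          · rfl
          · intro h
            exact (Finset.ne_of_mem_erase hx) h.2
        rw [h2, ← mul_assoc]
        have h3 : (algebraMap ℂ (MvPolynomial (Sg N A Λ) ℂ)) (v i (ref i)) *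
            C (v i (ref i))⁻¹ = 1 := by
          rw [← algebraMap_eq, ← map_mul, mul_inv_cancel₀ (hv i hi), map_one]
        rw [h3, one_mul]
        ring
      · rw [sbt_X_inl_not c ref v i x h, theta_X_inl_not c ref v i x h]
    · rw [sbt_X_inr, theta_X_inr]
  have := DFunLike.congr_fun h F
  simpa using this

theorem sbt_theta (c : Finset (Fin N)) (ref : Fin N → A) (v : Fin N → A → ℂ)
    (hv : ∀ i ∈ c, v i (ref i) ≠ 0) (F : MvPolynomial (Sg N A Λ) ℂ) :
    sbt c ref v (theta c ref v F) = F := by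
  have h : (sbt (Λ := Λ) c ref v).comp (theta c ref v) = AlgHom.id ℂ _ := by
    apply MvPolynomial.algHom_ext
    intro s
    rw [AlgHom.comp_apply, AlgHom.id_apply]
    rcases s with ⟨i, x⟩ | l
    · by_cases h : i ∈ c ∧ x = ref i
      · obtain ⟨hi, rfl⟩ := h
        rw [theta_X_inl_of c ref v i hi, map_mul, map_sub, map_sum, sbt_X_inl_of c ref v i hi,
          algHom_C]
        have h2 : ∑ x ∈ Finset.univ.erase (ref i), sbt (Λ := Λ) c ref v
            (C (v i x) * X (Sum.inl (i, x)))
            = ∑ x ∈ Finset.univ.erase (ref i), C (v i x) * X (Sum.inl (i, x)) := by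
          apply Finset.sum_congr rfl
          intro x hx
          rw [map_mul, sbt_X_inl_not c ref v i x, algHom_C]
          · rfl
          · intro h
            exact (Finset.ne_of_mem_erase hx) h.2
        rw [h2, ← Finset.add_sum_erase _ _ (Finset.mem_univ (ref i)), add_sub_cancel_right,
          ← mul_assoc]
        have h3 : (algebraMap ℂ (MvPolynomial (Sg N A Λ) ℂ)) (v i (ref i))⁻¹ *
            C (v i (ref i)) = 1 := by
          rw [← algebraMap_eq, ← map_mul, inv_mul_cancel₀ (hv i hi), map_one]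
        rw [h3, one_mul]
      · rw [theta_X_inl_not c ref v i x h, sbt_X_inl_not c ref v i x h]
    · rw [theta_X_inr, sbt_X_inr]
  have := DFunLike.congr_fun h F
  simpa using this

end BlockAX

/-- The substitution is injective if the reference coefficients do not vanish. -/
theorem sbt_injective (c : Finset (Fin N)) (ref : Fin N → A) (v : Fin N → A → ℂ)
    (hv : ∀ i ∈ c, v i (ref i) ≠ 0) :
    Function.Injective (sbt (Λ := Λ) c ref v) :=
  Function.LeftInverse.injective (g := theta c ref v) (theta_sbt c ref v hv)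

/-- At a coordinate vector the substitution is the identity. -/
theorem sbt_single (c : Finset (Fin N)) (ref : Fin N → A) (v : Fin N → A → ℂ)
    (hv : ∀ i ∈ c, v i = Pi.single (ref i) 1) (F : MvPolynomial (Sg N A Λ) ℂ) :
    sbt c ref v F = F := by
  have h : sbt (Λ := Λ) c ref v = AlgHom.id ℂ _ := by
    apply MvPolynomial.algHom_ext
    intro s
    rw [AlgHom.id_apply]
    rcases s with ⟨i, x⟩ | l
    · by_cases h : i ∈ c ∧ x = ref i
      · obtain ⟨hi, rfl⟩ := h
        rw [sbt_X_inl_of c ref v i hi, hv i hi, Finset.sum_eq_single (ref i)]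
        · rw [Pi.single_eq_same, C_1, one_mul]
        · intro b _ hb
          rw [Pi.single_eq_of_ne hb, C_0, zero_mul]
        · intro h; exact absurd (Finset.mem_univ _) h
      · rw [sbt_X_inl_not c ref v i x h]
    · rw [sbt_X_inr]
  rw [h, AlgHom.id_apply]

/-- The coefficients of `sbt c ref v F` are polynomial functions of `v`. -/
theorem sbt_poly (c : Finset (Fin N)) (ref : Fin N → A) (F : MvPolynomial (Sg N A Λ) ℂ)
    (γ : Sg N A Λ →₀ ℕ) :
    PolyFun (fun v : Fin N × A → ℂ => coeff γ (sbt c ref (fun i a => v (i, a)) F)) := by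
  induction F using MvPolynomial.induction_on generalizing γ with
  | C r =>
    have h : (fun v : Fin N × A → ℂ => coeff γ (sbt (Λ := Λ) c ref (fun i a => v (i, a)) (C r)))
        = fun _ => coeff γ (C r : MvPolynomial (Sg N A Λ) ℂ) := by
      funext v
      rw [algHom_C]
      rfl
    rw [h]
    exact PolyFun.const _
  | add p q hp hq =>
    have h := (hp γ).add (hq γ)
    convert h using 2 with v
    rw [map_add, coeff_add]
  | mul_X p s hp =>
    have h1 : ∀ δ : Sg N A Λ →₀ ℕ, PolyFun (fun v : Fin N × A → ℂ =>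
        coeff δ (sbt (Λ := Λ) c ref (fun i a => v (i, a)) (X s))) := by
      intro δ
      rcases s with ⟨i, x⟩ | l
      · by_cases h : i ∈ c ∧ x = ref i
        · obtain ⟨hi, rfl⟩ := h
          have h2 : (fun v : Fin N × A → ℂ => coeff δ
              (sbt (Λ := Λ) c ref (fun i a => v (i, a)) (X (Sum.inl (i, ref i)))))
              = fun v => ∑ a, v (i, a) * coeff δ (X (Sum.inl (i, a)) : MvPolynomial (Sg N A Λ) ℂ) := by
            funext v
            rw [sbt_X_inl_of c ref _ i hi, coeff_sum]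
            apply Finset.sum_congr rfl
            intro a _
            rw [coeff_C_mul]
          rw [h2]
          apply PolyFun.sum
          intro a _
          exact (PolyFun.coord _).mul (PolyFun.const _)
        · have h2 : (fun v : Fin N × A → ℂ => coeff δ
              (sbt (Λ := Λ) c ref (fun i a => v (i, a)) (X (Sum.inl (i, x)))))
              = fun _ => coeff δ (X (Sum.inl (i, x)) : MvPolynomial (Sg N A Λ) ℂ) := by
            funext v
            rw [sbt_X_inl_not c ref _ i x h]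
          rw [h2]
          exact PolyFun.const _
      · have h2 : (fun v : Fin N × A → ℂ => coeff δ
              (sbt (Λ := Λ) c ref (fun i a => v (i, a)) (X (Sum.inr l))))
              = fun _ => coeff δ (X (Sum.inr l) : MvPolynomial (Sg N A Λ) ℂ) := by
          funext v
          rw [sbt_X_inr]
        rw [h2]
        exact PolyFun.const _
    have h3 : (fun v : Fin N × A → ℂ => coeff γ
        (sbt (Λ := Λ) c ref (fun i a => v (i, a)) (p * X s)))
        = fun v => ∑ x ∈ Finset.HasAntidiagonal.antidiagonal γ,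
          coeff x.1 (sbt (Λ := Λ) c ref (fun i a => v (i, a)) p) *
          coeff x.2 (sbt (Λ := Λ) c ref (fun i a => v (i, a)) (X s)) := by
      funext v
      rw [map_mul, coeff_mul]
    rw [h3]
    apply PolyFun.sum
    intro x _
    exact (hp x.1).mul (h1 x.2)

end Pool.Agent.H21.HD
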